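import Pool.Agent.H11.ZDE.Stmts

/-! Project ZDE, module MAIN: simple sinks and the abstract main theorem. -/

set_option linter.unusedSimpArgs false

namespace Pool.Agent.H11.ZDE

open RootLat

namespace MainMod

variable {L : Type*} [AddCommGroup L] {R : RootLat L} (S : Sys R)

/-- the invariant: the representative of `{y, y r_s}` that is positive at `s` is active and `s` is
a sink there -/
def Inv (s : L) (y : Module.End ℤ L) : Prop :=
  S.A y ∧ ((R.P (y s) ∧ S.Sink y s) ∨ (R.P (-(y s)) ∧ S.A (y * R.r s) ∧ S.Sink (y * R.r s) s))

lemma step (hF2 : F2Stmt S) (s : L) (hs : s ∈ R.S) (y : Module.End ℤ L) (hy : Inv S s y) (e : L)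
    (he : S.F y e) : Inv S s (y * R.r e) := by
  have hsq := R.S_root s hs
  have hsp := R.S_pos s hs
  obtain ⟨hA, hinv⟩ := hy
  have hA' := S.up y e hA he
  refine ⟨hA', ?_⟩
  have hiso := S.iso y (S.AV y hA)
  have hiso' := S.iso _ (S.AV _ hA')
  have hroot : R.P ((y * R.r e) s) ∨ R.P (-((y * R.r e) s)) :=
    R.P_root _ (by rw [hiso', hsq])
  have hcalc : (y * R.r e) s = y s - R.Q s e • y e := by
    rw [Module.End.mul_apply, r_apply, map_sub, map_zsmul]
  by_cases hes : e = s
  · subst hes
    right
    have h1 : (y * R.r e) e = - y e := by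
      rw [Module.End.mul_apply, R.r_self hsq, map_neg]
    have h2 : y * R.r e * R.r e = y := by
      rw [mul_assoc, R.r_r hsq, mul_one]
    rcases hinv with ⟨h3, h4⟩ | ⟨h3, -, -⟩
    · refine ⟨?_, ?_, ?_⟩
      · rw [h1, neg_neg]; exact h3
      · rw [h2]; exact hA
      · rw [h2]; exact h4
    · exact absurd h3 (fun h => R.P_neg he.xp h)
  · have hep : R.P (e - R.Q e s • s) := R.S_refl s hs e he.q he.p hes
    have heq : R.Q (e - R.Q e s • s) (e - R.Q e s • s) = 2 := by
      have := R.Q_r hsq e e
      rw [r_apply] at this
      rw [this, he.q]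
    have hcases := R.Q_cases' hsq he.q hsp he.p (Ne.symm hes)
    rcases hinv with ⟨h3, h4⟩ | ⟨h3, hAz, h4⟩
    · rcases hroot with h5 | h5
      · -- (1)
        exact Or.inl ⟨h5, hF2 y e s hA h4 he h5⟩
      · -- (2)
        right
        refine ⟨h5, ?_⟩
        have hse : R.Q s e = 1 := by
          rcases hcases with h | h | h
          · exfalso
            rw [hcalc, h] at h5
            refine R.P_neg (R.P_add h3 he.xp) ?_
            refine R.P_cast h5 ?_
            module
          · exfalso
            rw [hcalc, h, zero_smul, sub_zero] at h5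
            exact R.P_neg h3 h5
          · exact h
        have hes1 : R.Q e s = 1 := by rw [R.Q_comm]; exact hse
        rw [hes1, one_smul] at hep heq
        -- z = y r_e r_s = y r_{e-s} r_e
        have hid : R.r e * R.r s = R.r (e - s) * R.r e := by
          ext a
          simp only [Module.End.mul_apply, r_apply, Q_sub, Q_smul, Q_subr, Q_smulr, hsq, he.q, hes1,
            hse]
          module
        have hz : y * R.r e * R.r s = y * R.r (e - s) * R.r e := by
          rw [mul_assoc, hid, mul_assoc]
        have hVz : S.V (y * R.r e * R.r s) := S.down _ s (S.AV _ hA') hsq hsp h5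
        have hze : (y * R.r e * R.r s) e = - y s := by
          simp only [Module.End.mul_apply, r_apply, Q_sub, Q_smul, Q_subr, Q_smulr, hsq, he.q, hes1,
            hse, ← map_neg]
          congr 1
          module
        have hV1 : S.V (y * R.r (e - s)) := by
          have h6 := S.down _ e hVz he.q he.p (by rw [hze, neg_neg]; exact h3)
          rw [hz, mul_assoc, R.r_r he.q, mul_one] at h6
          exact h6
        have hye' : R.P (y (e - s)) := by
          rw [hcalc, hse, one_smul] at h5
          refine R.P_cast h5 ?_
          rw [map_sub]; abel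
        have hF' : S.F y (e - s) := ⟨heq, hep, hye', hV1⟩
        have hA1 := S.up y (e - s) hA hF'
        have h7 : (y * R.r (e - s)) s = y e := by
          simp only [Module.End.mul_apply, r_apply, Q_sub, Q_smul, Q_subr, Q_smulr, hsq, he.q, hes1,
            hse]
          congr 1
          module
        have h8 : (y * R.r (e - s)) e = y s := by
          simp only [Module.End.mul_apply, r_apply, Q_sub, Q_smul, Q_subr, Q_smulr, hsq, he.q, hes1,
            hse]
          congr 1
          module
        have hs1 := hF2 y (e - s) s hA h4 hF' (by rw [h7]; exact he.xp)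
        have hF1 : S.F (y * R.r (e - s)) e :=
          ⟨he.q, he.p, by rw [h8]; exact h3, by rw [← hz]; exact hVz⟩
        have h9 : (y * R.r (e - s) * R.r e) s = - ((y * R.r e) s) := by
          rw [← hz]
          rw [Module.End.mul_apply, R.r_self hsq, map_neg]
        refine ⟨?_, ?_⟩
        · rw [hz]
          exact S.up _ e hA1 hF1
        · rw [hz]
          exact hF2 _ e s hA1 hs1 hF1 (by rw [h9]; exact h5)
    · rcases hroot with h5 | h5
      · -- (4)
        left
        refine ⟨h5, ?_⟩
        have hse : R.Q s e = -1 := by
          rcases hcases with h | h | h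
          · exact h
          · exfalso
            rw [hcalc, h, zero_smul, sub_zero] at h5
            exact R.P_neg h5 h3
          · exfalso
            rw [hcalc, h, one_smul] at h5
            have h6 := R.P_add (R.P_add h5 he.xp) h3
            rw [sub_add_cancel, add_neg_cancel] at h6
            exact R.P_zero h6
        have hes1 : R.Q e s = -1 := by rw [R.Q_comm]; exact hse
        have hep' : R.P (e + s) := R.P_cast hep (by rw [hes1]; module)
        have heq' : R.Q (e + s) (e + s) = 2 := by
          simp only [R.Q_add, R.Q_addr, he.q, hsq, hes1, hse]; norm_num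
        -- y r_e = z r_e r_{e+s},  z = y r_s
        have hid : R.r e = R.r s * R.r e * R.r (e + s) := by
          ext a
          simp only [Module.End.mul_apply, r_apply, Q_sub, Q_smul, Q_subr, Q_smulr, Q_add, Q_addr,
            hsq, he.q, hes1, hse]
          module
        have hy' : y * R.r e = y * R.r s * R.r e * R.r (e + s) := by
          conv_lhs => rw [hid]
          simp only [mul_assoc]
        have h6 : (y * R.r e) (e + s) = y s := by
          simp only [Module.End.mul_apply, r_apply, Q_sub, Q_smul, Q_subr, Q_smulr, Q_add, Q_addr,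
            hsq, he.q, hes1, hse]
          congr 1
          module
        have hV1 : S.V (y * R.r s * R.r e) := by
          have h7 := S.down _ (e + s) (S.AV _ hA') heq' hep' (by rw [h6]; exact h3)
          rw [hy', mul_assoc (y * R.r s * R.r e), R.r_r heq', mul_one] at h7
          exact h7
        have hze : R.P ((y * R.r s) e) := by
          refine R.P_cast h5 ?_
          simp only [Module.End.mul_apply, r_apply, Q_sub, Q_smul, Q_subr, Q_smulr, Q_add, Q_addr,
            hsq, he.q, hes1, hse]
          congr 1
          module
        have hFe : S.F (y * R.r s) e := ⟨he.q, he.p, hze, hV1⟩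
        have hA1 := S.up _ e hAz hFe
        have h8 : (y * R.r s * R.r e) s = y e := by
          simp only [Module.End.mul_apply, r_apply, Q_sub, Q_smul, Q_subr, Q_smulr, Q_add, Q_addr,
            hsq, he.q, hes1, hse]
          congr 1
          module
        have hs1 := hF2 _ e s hAz h4 hFe (by rw [h8]; exact he.xp)
        have h9 : (y * R.r s * R.r e) (e + s) = - y s := by
          simp only [Module.End.mul_apply, r_apply, Q_sub, Q_smul, Q_subr, Q_smulr, Q_add, Q_addr,
            hsq, he.q, hes1, hse, ← map_neg]
          congr 1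
          module
        have hF1 : S.F (y * R.r s * R.r e) (e + s) :=
          ⟨heq', hep', by rw [h9]; exact h3, by rw [← hy']; exact S.AV _ hA'⟩
        have h10 := hF2 _ (e + s) s hA1 hs1 hF1 (by rw [← hy']; exact h5)
        rw [← hy'] at h10
        exact h10
      · -- (3)
        right
        refine ⟨h5, ?_⟩
        have hid : R.r e * R.r s = R.r s * R.r (e - R.Q e s • s) := by
          have := R.conj (b := s) (c := e) hsq
          rw [this, r_apply]
        have hz : y * R.r e * R.r s = y * R.r s * R.r (e - R.Q e s • s) := by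
          rw [mul_assoc, hid, mul_assoc]
        have hVz : S.V (y * R.r e * R.r s) := S.down _ s (S.AV _ hA') hsq hsp h5
        have hze : (y * R.r s) (e - R.Q e s • s) = y e := by
          rw [← r_apply]
          exact congrArg y (LinearMap.congr_fun (R.r_r hsq) e)
        have hF' : S.F (y * R.r s) (e - R.Q e s • s) :=
          ⟨heq, hep, by rw [hze]; exact he.xp, by rw [← hz]; exact hVz⟩
        have h9 : (y * R.r e * R.r s) s = - ((y * R.r e) s) := by
          rw [Module.End.mul_apply (y * R.r e), R.r_self hsq, map_neg]
        refine ⟨?_, ?_⟩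
        · rw [hz]
          exact S.up _ _ hAz hF'
        · have := hF2 _ _ s hAz h4 hF' (by rw [← hz, h9]; exact h5)
          rw [hz]
          exact this

theorem simple_stmt (hF2 : F2Stmt S) : SimpleStmt S := by
  intro x s v hA hs hsink hup hv
  have hx : Inv S s x := ⟨hA, Or.inl ⟨hsink.fb.xp, hsink⟩⟩
  have key : ∀ y, S.Up x y → Inv S s y := by
    intro y hy
    induction hy with
    | refl => exact hx
    | tail _ hstep ih =>
      obtain ⟨e, he, rfl⟩ := hstep
      exact step S hF2 s hs _ ih e he
  obtain ⟨-, ⟨-, h2⟩ | ⟨h1, -, -⟩⟩ := key v hup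
  · exact absurd h2.fb (hv s)
  · exact h1

lemma reach_of_transGen (x : Module.End ℤ L) (b c : L) (h : Relation.TransGen (S.Arr x) b c) :
    S.Reach x b c := by
  induction h with
  | @single c h =>
    refine ⟨1, one_pos, fun j => if j = 0 then b else c, by simp, by simp, ?_⟩
    intro j hj
    have : j = 0 := by omega
    subst this
    simpa using h
  | @tail c d _ h ih =>
    obtain ⟨n, hn, f, h0, h1, h2⟩ := ih
    refine ⟨n + 1, Nat.succ_pos n, fun j => if j ≤ n then f j else d, by simp [h0], by simp, ?_⟩
    intro j hj
    by_cases hjn : j = n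
    · subst hjn
      simpa [h1] using h
    · have h3 : j < n := by omega
      have h4 : j + 1 ≤ n := h3
      simp only [h3.le, h4, if_true]
      exact h2 j h3

lemma exists_sink (hXY : XYStmt S) (x : Module.End ℤ L) (hA : S.A x) (a : L) (ha : S.F x a) :
    ∃ b, S.Sink x b := by
  classical
  have hfin : Finite {b // S.F x b} := by
    have : Set.Finite {b | S.F x b} := R.fin.subset fun b hb => hb.q
    exact this.to_subtype
  let rel : {b // S.F x b} → {b // S.F x b} → Prop := fun c b => Relation.TransGen (S.Arr x) b.1 c.1
  have htr : IsTrans _ rel := ⟨fun a b c hab hbc => hbc.trans hab⟩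
  have hir : Std.Irrefl rel := ⟨fun a h => (hXY x hA a.1 a.1 (reach_of_transGen S x _ _ h)).1 rfl⟩
  have hwf : WellFounded rel := Finite.wellFounded_of_trans_of_irrefl rel
  obtain ⟨b, -, hb⟩ := hwf.has_min Set.univ ⟨⟨a, ha⟩, trivial⟩
  refine ⟨b.1, b.2, ?_⟩
  intro e he hbe
  by_contra hcon
  have h1 := S.ruleM x b.1 e hA b.2 he hbe
  have h2 : S.Arr x b.1 e := ⟨b.2, he, hbe, h1.resolve_right hcon, hcon⟩
  exact hb ⟨e, he⟩ trivial (Relation.TransGen.single h2)

theorem main_stmt (hXY : XYStmt S) (hF2 : F2Stmt S) (hDesc : DescStmt S) : MainStmt S := by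
  intro x v hA hfull hup hne hv
  have ha : ∃ a, S.F x a := by
    rcases Relation.ReflTransGen.cases_head hup with h | ⟨y, ⟨a, ha, -⟩, -⟩
    · exact absurd h hne
    · exact ⟨a, ha⟩
  obtain ⟨a, ha⟩ := ha
  have key : ∀ n : ℕ, ∀ b, S.Sink x b → R.ht b ≤ n → ∃ s ∈ R.S, S.Sink x s := by
    intro n
    induction n with
    | zero =>
      intro b hb h
      have := R.ht_pos b hb.fb.p
      exfalso
      push_cast at h
      omega
    | succ n ih =>
      intro b hb h
      by_cases hbs : b ∈ R.S
      · exact ⟨b, hbs, hb⟩
      · obtain ⟨b', hb', hlt⟩ := hDesc x hA hfull b hb hbs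
        refine ih b' hb' ?_
        push_cast at h
        omega
  obtain ⟨b, hb⟩ := exists_sink S hXY x hA a ha
  obtain ⟨s, hs, hss⟩ := key (R.ht b).toNat b hb (Int.self_le_toNat _)
  exact ⟨s, hs, hss.fb.xp, simple_stmt S hF2 x s v hA hs hss hup hv⟩

end MainMod

end Pool.Agent.H11.ZDE
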